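import Pool.Agent.H250.AQ.Pol
import Pool.Agent.H250.AQ.Simp
import Pool.Agent.H250.AQ.Eq

/-!
# The sharp lower bound for the volume by the affine quermassintegral `Φ_{n-1}`

For all `n ≥ 2` the largest constant `a` such that `a Φ_{n-1}(K) ≤ κ_n^{(n-1)/n} |K|^{1/n}` for all
convex bodies `K` of `ℝⁿ` is `a_{n,1} = 2 κ_n^{-2/n} ((n+1)/n!)^{1/n}`, and equality holds exactly
for the simplices.

Polar coordinates give `∫_{G(n,1)} λ_1(K|S)^{-n} dS = |(K-K)°|/κ_n`.  So the statement is
`|K| |(K-K)°| ≥ (n+1)/n!` with equality exactly for simplices.  The inequality is a consequence of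
Mahler's inequality for the symmetric body `conv (K × {1} ∪ -K × {-1})` of `ℝⁿ⁺¹` and of the
inequality of Rogers-Shephard type `∫_0^1 |(1-s)K - sK| ds ≤ 2ⁿ/(n+1) |K|`; equality forces all the
mixed volumes `V(K[j], -K[n-j])` to be extremal in Godbersen's inequality, so that `K` is a simplex.
-/

set_option autoImplicit false

open MeasureTheory Set
open scoped ENNReal

noncomputable section

namespace Pool.Agent.Results.MP_6fb600_gt.Lines

/-- `ℝⁿ` with the Euclidean norm -/
abbrev E (n : ℕ) : Type := EuclideanSpace ℝ (Fin n)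

/-- convex bodies: compact convex sets with nonempty interior -/
def IsBody {n : ℕ} (K : Set (E n)) : Prop := IsCompact K ∧ Convex ℝ K ∧ (interior K).Nonempty

/-- `n`-simplices: convex hulls of `n + 1` affinely independent points -/
def IsSimplex {n : ℕ} (K : Set (E n)) : Prop :=
  ∃ v : Fin (n + 1) → E n, AffineIndependent ℝ v ∧ K = convexHull ℝ (range v)

/-- `κ_k`, the volume of the unit ball of `ℝᵏ` -/
def kappa (k : ℕ) : ℝ := (volume (Metric.ball (0 : E k) 1)).toReal

/-- `λ_1(K|S)`, the length of the orthogonal projection of `K` onto the line `S = ℝ u`, `|u| = 1`: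
the projection is `{⟨x, u⟩ u : x ∈ K}` -/
def shadow {n : ℕ} (K : Set (E n)) (u : E n) : ℝ :=
  (volume ((fun x : E n => inner ℝ u x) '' K)).toReal

/-- the integral of a function of the lines `ℝ u` over `G(n,1)` with respect to the
rotation-invariant probability measure, which is the image of the normalised surface measure of the
unit sphere under the map `u ↦ ℝ u` -/
def lineIntegral {n : ℕ} (f : E n → ℝ) : ℝ :=
  ⨍ u : Metric.sphere (0 : E n) 1, f u ∂(volume : Measure (E n)).toSphere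

/-- the affine quermassintegral `Φ_{n-1}(K)` (`i = 1`) -/
def Phi {n : ℕ} (K : Set (E n)) : ℝ :=
  kappa n / kappa 1 * (lineIntegral fun u => (shadow K u ^ n)⁻¹) ^ (-(1 / (n : ℝ)))

/-- the constant `a_{n,1} = 2 κ_n^{-2/n} ((n+1)/n!)^{1/n}` -/
def a (n : ℕ) : ℝ :=
  2 * kappa n ^ (-(2 / (n : ℝ))) * (((n : ℝ) + 1) / n.factorial) ^ (1 / (n : ℝ))

theorem kappa_pos (n : ℕ) : 0 < kappa n :=
  ENNReal.toReal_pos (Metric.measure_ball_pos _ _ one_pos).ne' measure_ball_lt_top.ne

theorem kappa_one : kappa 1 = 2 := by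
  unfold kappa
  rw [EuclideanSpace.volume_ball]
  simp only [ENNReal.ofReal_one, Fintype.card_fin, pow_one, Nat.cast_one, one_mul]
  rw [ENNReal.toReal_ofReal (by positivity), Real.Gamma_add_one (by norm_num),
    Real.Gamma_one_half_eq]
  have : (Real.sqrt Real.pi) ≠ 0 := (Real.sqrt_pos.2 Real.pi_pos).ne'
  field_simp

/-- `∫_{G(n,1)} λ_1(K|S)^{-n} dS = |(K-K)°|/κ_n` -/
theorem lineIntegral_eq {n : ℕ} {K : Set (E (n + 1))} (hK : IsBody K) :
    (lineIntegral fun u => (shadow K u ^ (n + 1))⁻¹) =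
      (volume (H250.AQ.D K)).toReal / kappa (n + 1) := by
  obtain ⟨hc, hv, hi⟩ := hK
  have hne : K.Nonempty := hi.mono interior_subset
  have h1 : ∀ u : Metric.sphere (0 : E (n + 1)) 1,
      (shadow K (u : E (n + 1)) ^ (n + 1))⁻¹ = (1 / H250.AQ.W K u) ^ (n + 1) := by
    intro u
    have hu : ‖(u : E (n + 1))‖ = 1 := norm_eq_of_mem_sphere u
    have hu0 : (u : E (n + 1)) ≠ 0 := by
      intro h
      rw [h, norm_zero] at hu
      norm_num at hu
    unfold shadow
    rw [H250.AQ.shadow_eq' hc hv hne hu, ENNReal.toReal_ofReal (H250.AQ.W_pos hc hi hu0).le,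
      one_div, inv_pow]
  unfold lineIntegral
  rw [average_eq]
  simp_rw [h1]
  rw [integral_eq_lintegral_of_nonneg_ae]
  · rw [H250.AQ.lint_W hc hi, measureReal_def, Measure.toSphere_apply_univ, smul_eq_mul]
    have hk : (volume (Metric.ball (0 : E (n + 1)) 1)).toReal = kappa (n + 1) := rfl
    rw [ENNReal.toReal_mul, ENNReal.toReal_mul, hk]
    have h2 : ((n : ℝ≥0∞) + 1).toReal = (n : ℝ) + 1 := by
      rw [ENNReal.toReal_add (ENNReal.natCast_ne_top n) ENNReal.one_ne_top]
      simp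
    have h3 : ((Module.finrank ℝ (E (n + 1)) : ℕ) : ℝ≥0∞).toReal = (n : ℝ) + 1 := by
      rw [ENNReal.toReal_natCast, finrank_euclideanSpace, Fintype.card_fin]
      push_cast
      ring
    rw [h2, h3]
    have hk0 := (kappa_pos (n + 1)).ne'
    have hn0 : ((n : ℝ) + 1) ≠ 0 := by positivity
    field_simp
  · refine Filter.Eventually.of_forall fun u => ?_
    have hu : ‖(u : E (n + 1))‖ = 1 := norm_eq_of_mem_sphere u
    have hu0 : (u : E (n + 1)) ≠ 0 := by
      intro h
      rw [h, norm_zero] at hu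
      norm_num at hu
    have := H250.AQ.W_pos hc hi hu0
    positivity
  · refine Measurable.aestronglyMeasurable ?_
    exact (((H250.AQ.W_measurable hc hne).comp measurable_subtype_coe).const_div 1).pow_const _

/-- the volume of the polar body of the difference body is positive and finite -/
theorem D_pos {n : ℕ} {K : Set (E n)} (hK : IsBody K) :
    0 < (volume (H250.AQ.D K)).toReal ∧ volume (H250.AQ.D K) ≠ ⊤ := by
  obtain ⟨hc, hv, hi⟩ := hK
  have hne : K.Nonempty := hi.mono interior_subset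
  have hfin : volume (H250.AQ.D K) ≠ ⊤ := by
    obtain ⟨x, hx⟩ := hi
    obtain ⟨ε, hε, hb⟩ := Metric.nhds_basis_closedBall.mem_iff.1 (mem_interior_iff_mem_nhds.1 hx)
    have hsub : H250.AQ.D K ⊆ Metric.closedBall 0 (1 / ε) := by
      intro u hu
      rw [mem_closedBall_zero_iff, le_div_iff₀ hε]
      by_cases hu0 : u = 0
      · rw [hu0, norm_zero, zero_mul]
        norm_num
      have hn : 0 < ‖u‖ := norm_pos_iff.2 hu0
      have hy : x + (ε / ‖u‖) • u ∈ K := by
        apply hb
        rw [Metric.mem_closedBall, dist_eq_norm, add_sub_cancel_left, norm_smul, Real.norm_eq_abs,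
          abs_of_pos (by positivity), div_mul_cancel₀ _ hn.ne']
      have h1 := (H250.AQ.W_le_iff hc hne).1 hu _ hy x (hb (Metric.mem_closedBall_self hε.le))
      rw [add_sub_cancel_left, inner_smul_left, conj_trivial, real_inner_self_eq_norm_sq] at h1
      have e : ε / ‖u‖ * ‖u‖ ^ 2 = ‖u‖ * ε := by
        field_simp
      linarith
    exact ((measure_mono hsub).trans_lt measure_closedBall_lt_top).ne
  refine ⟨ENNReal.toReal_pos ?_ hfin, hfin⟩
  intro h0
  have hK' : IsCompact (TH421.GO.eq n '' K) := hc.image (TH421.GO.eq n).continuous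
  have hc' : Convex ℝ (TH421.GO.eq n '' K) :=
    hv.linear_image ((TH421.GO.eq n : EuclideanSpace ℝ (Fin n) →ₗ[ℝ] (Fin n → ℝ)))
  have h1 := H821.AM.diff hK' hc' (TH421.GO.int_image n K hi)
  rw [← H250.AQ.vol_D hc hne, h0, mul_zero] at h1
  have h2 : (0 : ℝ) < ((n : ℝ) + 1) / n.factorial := by
    have : (0 : ℝ) < n.factorial := by exact_mod_cast n.factorial_pos
    positivity
  exact absurd (ENNReal.ofReal_pos.2 h2) (not_lt.2 h1)

/-- the sharp inequality in real form -/
theorem ineq {n : ℕ} {K : Set (E n)} (hK : IsBody K) :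
    ((n : ℝ) + 1) / n.factorial ≤ (volume K).toReal * (volume (H250.AQ.D K)).toReal := by
  obtain ⟨hc, hv, hi⟩ := id hK
  have hne : K.Nonempty := hi.mono interior_subset
  have hK' : IsCompact (TH421.GO.eq n '' K) := hc.image (TH421.GO.eq n).continuous
  have hc' : Convex ℝ (TH421.GO.eq n '' K) :=
    hv.linear_image ((TH421.GO.eq n : EuclideanSpace ℝ (Fin n) →ₗ[ℝ] (Fin n → ℝ)))
  have h1 := H821.AM.diff hK' hc' (TH421.GO.int_image n K hi)
  rw [← H250.AQ.vol_D hc hne, TH421.GO.vol_image, ENNReal.ofReal_le_iff_le_toReal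
    (ENNReal.mul_ne_top hc.measure_lt_top.ne (D_pos hK).2), ENNReal.toReal_mul] at h1
  exact h1

/-- the equality case in real form -/
theorem ineq_eq_iff {n : ℕ} (hn : 2 ≤ n) {K : Set (E n)} (hK : IsBody K) :
    ((n : ℝ) + 1) / n.factorial = (volume K).toReal * (volume (H250.AQ.D K)).toReal ↔
      IsSimplex K := by
  obtain ⟨hc, hv, hi⟩ := id hK
  have hne : K.Nonempty := hi.mono interior_subset
  have h0 : (0 : ℝ) ≤ ((n : ℝ) + 1) / n.factorial := by positivity
  constructor
  · intro h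
    refine H250.AQ.simplex_of_eq hn hc hv hi ?_
    rw [← H250.AQ.vol_D hc hne, h, ENNReal.ofReal_mul ENNReal.toReal_nonneg,
      ENNReal.ofReal_toReal hc.measure_lt_top.ne, ENNReal.ofReal_toReal (D_pos hK).2]
  · rintro ⟨v, hv', rfl⟩
    have h1 := H250.AQ.eq_simplex v hv'
    rw [← H250.AQ.vol_D hc hne] at h1
    rw [← ENNReal.toReal_mul, h1, ENNReal.toReal_ofReal h0]

theorem main {n : ℕ} (hn : 2 ≤ n) {K : Set (E n)} (hK : IsBody K) :
    a n * Phi K = kappa n ^ (((n : ℝ) - 1) / n) *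
      ((((n : ℝ) + 1) / n.factorial) / (volume (H250.AQ.D K)).toReal) ^ (1 / (n : ℝ)) := by
  obtain ⟨m, rfl⟩ : ∃ m, n = m + 1 := ⟨n - 1, by omega⟩
  unfold Phi a
  rw [lineIntegral_eq hK, kappa_one]
  set k := kappa (m + 1) with hk
  have hk0 : 0 < k := kappa_pos _
  set d := (volume (H250.AQ.D K)).toReal with hd
  have hd0 : 0 < d := (D_pos hK).1
  set c : ℝ := (((m + 1 : ℕ) : ℝ) + 1) / (m + 1).factorial with hc
  have hc0 : 0 < c := by
    have : (0 : ℝ) < (m + 1).factorial := by exact_mod_cast (m + 1).factorial_pos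
    positivity
  set N : ℝ := ((m + 1 : ℕ) : ℝ) with hN
  have hN0 : 0 < N := by positivity
  rw [Real.div_rpow hd0.le hk0.le, Real.div_rpow hc0.le hd0.le]
  rw [Real.rpow_neg hd0.le, Real.rpow_neg hk0.le (1 / N)]
  have e1 : k ^ (-(2 / N)) * k * k ^ (1 / N) = k ^ ((N - 1) / N) := by
    nth_rewrite 2 [← Real.rpow_one k]
    rw [← Real.rpow_add hk0, ← Real.rpow_add hk0]
    congr 1
    field_simp
    ring
  rw [← e1]
  have h1 : k ^ (1 / N) ≠ 0 := (Real.rpow_pos_of_pos hk0 _).ne'
  have h2 : d ^ (1 / N) ≠ 0 := (Real.rpow_pos_of_pos hd0 _).ne'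
  field_simp

/-- there is a simplex with nonempty interior -/
theorem exists_simplex (n : ℕ) : ∃ K : Set (E n), IsBody K ∧ IsSimplex K := by
  obtain ⟨v, hv⟩ : ∃ v : Fin (n + 1) → E n, AffineIndependent ℝ v := by
    obtain ⟨b⟩ := AffineBasis.exists_affineBasis_of_finiteDimensional (k := ℝ) (P := E n)
      (ι := Fin (n + 1)) (by simp)
    exact ⟨b, b.ind⟩
  refine ⟨convexHull ℝ (range v), ⟨(finite_range v).isCompact_convexHull ℝ, convex_convexHull ℝ _, ?_⟩,
    v, hv, rfl⟩
  rw [interior_convexHull_nonempty_iff_affineSpan_eq_top]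
  rw [hv.affineSpan_eq_top_iff_card_eq_finrank_add_one]
  simp

/-- **The sharp lower bound for the volume by `Φ_{n-1}`** (the case `i = 1` of Q1, all `n ≥ 2`): the
largest constant is `a n`, and equality holds exactly for the simplices. -/
theorem result (n : ℕ) (hn : 2 ≤ n) :
    IsGreatest {b : ℝ | ∀ K : Set (E n), IsBody K →
      b * Phi K ≤ kappa n ^ (((n : ℝ) - 1) / n) * (volume K).toReal ^ (1 / (n : ℝ))} (a n) ∧
    ∀ K : Set (E n), IsBody K →
      (a n * Phi K = kappa n ^ (((n : ℝ) - 1) / n) * (volume K).toReal ^ (1 / (n : ℝ)) ↔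
        IsSimplex K) := by
  have hN : (0 : ℝ) < n := by
    have : 0 < n := by omega
    exact_mod_cast this
  have hN1 : (0 : ℝ) < 1 / (n : ℝ) := by positivity
  have hk : 0 < kappa n ^ (((n : ℝ) - 1) / n) := Real.rpow_pos_of_pos (kappa_pos n) _
  have hc : (0 : ℝ) ≤ ((n : ℝ) + 1) / n.factorial := by positivity
  have hle : ∀ K : Set (E n), IsBody K →
      a n * Phi K ≤ kappa n ^ (((n : ℝ) - 1) / n) * (volume K).toReal ^ (1 / (n : ℝ)) := by
    intro K hK
    rw [main hn hK]
    refine mul_le_mul_of_nonneg_left (Real.rpow_le_rpow (by positivity) ?_ hN1.le) hk.le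
    rw [div_le_iff₀ (D_pos hK).1]
    exact ineq hK
  have hiff : ∀ K : Set (E n), IsBody K →
      (a n * Phi K = kappa n ^ (((n : ℝ) - 1) / n) * (volume K).toReal ^ (1 / (n : ℝ)) ↔
        IsSimplex K) := by
    intro K hK
    rw [main hn hK, mul_right_inj' hk.ne', ← ineq_eq_iff hn hK,
      Real.rpow_left_inj (by positivity) ENNReal.toReal_nonneg hN1.ne', div_eq_iff (D_pos hK).1.ne']
  refine ⟨⟨hle, ?_⟩, hiff⟩
  intro b hb
  obtain ⟨K, hK, hS⟩ := exists_simplex n
  have h1 := hb K hK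
  rw [← (hiff K hK).2 hS] at h1
  have hPhi : 0 < Phi K := by
    obtain ⟨m, rfl⟩ : ∃ m, n = m + 1 := ⟨n - 1, by omega⟩
    unfold Phi
    rw [lineIntegral_eq hK, kappa_one]
    have h2 := kappa_pos (m + 1)
    have h3 := (D_pos hK).1
    positivity
  exact le_of_mul_le_mul_right h1 hPhi

end Pool.Agent.Results.MP_6fb600_gt.Lines
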